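import Pool.Agent.Lib_helper52.YG.Defs

set_option autoImplicit false

namespace Pool.Agent.YG

open MeasureTheory ENNReal Set Filter Topology Pool.Agent.EPS

/-- the data: entropy powers `x, y, z` of `X, Y, Z`, `p, q, r` of `X+Z, Y+Z, X+Y`, `v` of the sum,
and the inequalities known for them -/
structure EPow (x y z p q r v : ℝ) : Prop where
  hx : 0 < x
  hy : 0 < y
  hz : 0 < z
  ep : x + z ≤ p
  eq : y + z ≤ q
  er : x + y ≤ r
  rv : r ≤ v
  sz : v * z ≤ p * q
  sx : v * x ≤ p * r
  sy : v * y ≤ q * r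
  he : ∀ a b c : ℝ, 0 < a → 0 < b → 0 < c → x * q = b + c → y * p = a + c → z * r = a + b →
    x * y * z * v ≤ a * b + b * c + c * a

theorem u2_a {x y z p q r v : ℝ} (hx : 0 < x) (hy : 0 < y) (hp : x ≤ p)
    (sx : v * x ≤ p * r) (hz : 0 < z) (ha : y * p + z * r ≤ x * q) : v * z + x * y ≤ p * q := by
  have hp0 : 0 < p := by linarith
  have h1 : v * x * z ≤ p * r * z := mul_le_mul_of_nonneg_right sx hz.le
  have h2 : p * (z * r) ≤ p * (x * q - y * p) := mul_le_mul_of_nonneg_left (by linarith) hp0.le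
  have h3 : y * (x * x) ≤ y * (p * p) :=
    mul_le_mul_of_nonneg_left (mul_le_mul hp hp hx.le hp0.le) hy.le
  have h4 : x * (v * z + x * y) ≤ x * (p * q) := by nlinarith
  exact le_of_mul_le_mul_left h4 hx

theorem u2_core {x y z p q r v : ℝ} (hx : 0 < x) (hy : 0 < y) (hz : 0 < z) (hp : x ≤ p) (hq : y ≤ q)
    (sx : v * x ≤ p * r) (sy : v * y ≤ q * r)
    (he : ∀ a b c : ℝ, 0 < a → 0 < b → 0 < c → x * q = b + c → y * p = a + c → z * r = a + b →
      x * y * z * v ≤ a * b + b * c + c * a)
    (hc : z * r + 2 * (x * y) ≤ x * q + y * p) : v * z + x * y ≤ p * q := by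
  by_cases ha : y * p + z * r ≤ x * q
  · exact u2_a hx hy hp sx hz ha
  by_cases hb : x * q + z * r ≤ y * p
  · have := u2_a hy hx hq sy hz hb
    linarith
  push Not at ha hb
  have hxy : 0 < x * y := mul_pos hx hy
  have h1 := he ((y * p + z * r - x * q) / 2) ((x * q + z * r - y * p) / 2)
    ((x * q + y * p - z * r) / 2) (by linarith) (by linarith) (by linarith) (by ring) (by ring)
    (by ring)
  set c := (x * q + y * p - z * r) / 2 with hcdef
  have hcge : x * y ≤ c := by rw [hcdef]; linarith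
  have h2 : (y * p + z * r - x * q) / 2 = y * p - c := by rw [hcdef]; ring
  have h3 : (x * q + z * r - y * p) / 2 = x * q - c := by rw [hcdef]; ring
  rw [h2, h3] at h1
  have h4 : (x * y) * (x * y) ≤ c * c := mul_le_mul hcge hcge hxy.le (hxy.le.trans hcge)
  have h5 : (x * y) * (v * z + x * y) ≤ (x * y) * (p * q) := by nlinarith
  exact le_of_mul_le_mul_left h5 hxy

/-- if `X+Y` is not too spread out then the inequality with pivot `Z` holds -/
theorem criterion {x y z p q r v : ℝ} (h : EPow x y z p q r v)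
    (hc : z * r + 2 * (x * y) ≤ x * q + y * p) : v * z + x * y ≤ p * q :=
  u2_core h.hx h.hy h.hz (by linarith [h.ep, h.hz]) (by linarith [h.eq, h.hz]) h.sx h.sy h.he hc

/-- of two pivots at least one is good -/
theorem two_pivots {x y z p q r v : ℝ} (h : EPow x y z p q r v) :
    v * z + x * y ≤ p * q ∨ v * x + y * z ≤ p * r := by
  by_cases hc : z * r + 2 * (x * y) ≤ x * q + y * p
  · exact Or.inl (criterion h hc)
  · right
    push Not at hc
    have h1 : y * (x + z) ≤ y * p := mul_le_mul_of_nonneg_left h.ep h.hy.le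
    have h2 : v * x + z * y ≤ p * r := by
      refine u2_core (x := z) (y := y) (z := x) (p := p) (q := r) (r := q) (v := v) h.hz h.hy h.hx
        (by linarith [h.ep, h.hx]) (by linarith [h.er, h.hx]) h.sz (by linarith [h.sy]) ?_ ?_
      · intro a b c ha hb hc' e1 e2 e3
        have := h.he c b a hc' hb ha (by linarith) (by linarith) (by linarith)
        nlinarith
      · nlinarith
    linarith

/-- the inequality up to the factor two -/
theorem half {x y z p q r v : ℝ} (h : EPow x y z p q r v) : v * z / 2 + x * y ≤ p * q := by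
  have hx := h.hx
  have hy := h.hy
  have hz := h.hz
  have hxy : 0 < x * y := mul_pos hx hy
  have hv : 0 < v := by linarith [h.er, h.rv]
  have hvz : 0 < v * z := mul_pos hv hz
  have hp : 0 < p := by linarith [h.ep]
  have hq : 0 < q := by linarith [h.eq]
  have hpq : 0 < p * q := mul_pos hp hq
  by_cases ha : y * p + z * r ≤ x * q
  · have := u2_a hx hy (by linarith [h.ep]) h.sx hz ha
    linarith
  by_cases hb : x * q + z * r ≤ y * p
  · have := u2_a hy hx (by linarith [h.eq]) h.sy hz hb
    linarith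
  push Not at ha hb
  have hzrv : z * r ≤ z * v := mul_le_mul_of_nonneg_left h.rv hz.le
  by_cases hc : x * q + y * p ≤ z * r
  · -- `p q ≥ 4 x y`
    have h1 : x * q + y * p ≤ p * q := by linarith [h.sz]
    have h0 : 0 ≤ x * q + y * p := by positivity
    have h2 : (x * q + y * p) * (x * q + y * p) ≤ (p * q) * (p * q) :=
      mul_le_mul h1 h1 h0 hpq.le
    have h3 : (p * q) * (4 * (x * y)) ≤ (p * q) * (p * q) := by
      nlinarith [sq_nonneg (x * q - y * p)]
    have h4 := le_of_mul_le_mul_left h3 hpq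
    linarith [h.sz]
  push Not at hc
  have h1 := h.he ((y * p + z * r - x * q) / 2) ((x * q + z * r - y * p) / 2)
    ((x * q + y * p - z * r) / 2) (by linarith) (by linarith) (by linarith) (by ring) (by ring)
    (by ring)
  obtain ⟨a, ha'⟩ : ∃ a, a = (y * p + z * r - x * q) / 2 := ⟨_, rfl⟩
  obtain ⟨b, hb'⟩ : ∃ b, b = (x * q + z * r - y * p) / 2 := ⟨_, rfl⟩
  obtain ⟨c, hc'⟩ : ∃ c, c = (x * q + y * p - z * r) / 2 := ⟨_, rfl⟩
  obtain ⟨e, he'⟩ : ∃ e, e = x * y := ⟨_, rfl⟩
  rw [← ha', ← hb', ← hc', ← he'] at h1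
  have ha0 : 0 < a := by rw [ha']; linarith
  have hb0 : 0 < b := by rw [hb']; linarith
  have hc0 : 0 < c := by rw [hc']; linarith
  have he0 : 0 < e := by rw [he']; exact hxy
  have eyp : y * p = a + c := by rw [ha', hc']; ring
  have exq : x * q = b + c := by rw [hb', hc']; ring
  have ezr : z * r = a + b := by rw [ha', hb']; ring
  have hP : e * (p * q) = (a + c) * (b + c) := by
    rw [← eyp, ← exq, he']; ring
  by_cases hce : e ≤ c
  · have := criterion h (by rw [exq, eyp, ezr, ← he']; linarith)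
    linarith
  push Not at hce
  -- `e (a + b) ≤ a b + c (a + b)`
  have h2 : e * (a + b) ≤ a * b + c * (a + b) := by
    have h3 : e * (z * r) ≤ e * (z * v) := mul_le_mul_of_nonneg_left hzrv he0.le
    rw [ezr] at h3
    nlinarith
  have h5 : 4 * (e - c) ≤ a + b := by
    have h4 : 4 * (a * b) ≤ (a + b) * (a + b) := by nlinarith [sq_nonneg (a - b)]
    have h6 : (a + b) * (4 * (e - c)) ≤ (a + b) * (a + b) := by nlinarith
    exact le_of_mul_le_mul_left h6 (by linarith)
  have h7 : 2 * (e * e) - c * c ≤ (a + c) * (b + c) := by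
    have h8 : e * (4 * (e - c)) ≤ e * (a + b) := mul_le_mul_of_nonneg_left h5 he0.le
    nlinarith [sq_nonneg (e - c)]
  have h9 : e * (v * z / 2 + e) ≤ e * (p * q) := by
    rw [hP]
    nlinarith
  have h10 := le_of_mul_le_mul_left h9 he0
  rw [he'] at h10
  exact h10

end Pool.Agent.YG
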